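import Pool.Agent.Y674.TR.Stm2

/-! Differential addition (job TR2-ADD of helper674). -/

set_option autoImplicit false

namespace Pool.Agent.Y401.TR

open WeierstrassCurve Polynomial Pool.Agent.Y674.TR

/-- the sum of two points with given difference, different `x`-coordinates -/
theorem core {F : Type*} [Field F] [DecidableEq F] {W : Affine F} {A B : F}
    (h1 : W.a₁ = 0) (h2 : W.a₂ = 0) (h3 : W.a₃ = 0) (h4 : W.a₄ = A) (h6 : W.a₆ = B)
    {t s x1 y1 x2 y2 : F} (h : W.Nonsingular t s) (hx1 : W.Nonsingular x1 y1)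
    (hx2 : W.Nonsingular x2 y2) (hne : x1 ≠ x2)
    (hP : Affine.Point.some x2 y2 hx2 = Affine.Point.some x1 y1 hx1 + Affine.Point.some t s h) :
    ∃ (x3 y3 : F) (h' : W.Nonsingular x3 y3),
      Affine.Point.some x1 y1 hx1 + Affine.Point.some x2 y2 hx2 = Affine.Point.some x3 y3 h' ∧
      (x3 + t) * (x1 - x2) ^ 2 = 2 * ((x1 + x2) * (x1 * x2 + A) + 2 * B) := by
  have heq1 : y1 ^ 2 = x1 ^ 3 + A * x1 + B := by
    have := (W.equation_iff x1 y1).1 hx1.1
    rw [h1, h2, h3, h4, h6] at this
    linear_combination this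
  have heq2 : y2 ^ 2 = x2 ^ 3 + A * x2 + B := by
    have := (W.equation_iff x2 y2).1 hx2.1
    rw [h1, h2, h3, h4, h6] at this
    linear_combination this
  have hneg : ∀ a b : F, W.negY a b = -b := fun a b => by
    rw [Affine.negY, h1, h3]
    ring
  have hQ : Affine.Point.some t s h = -Affine.Point.some x1 y1 hx1 + Affine.Point.some x2 y2 hx2 := by
    rw [hP, neg_add_cancel_left]
  rw [Affine.Point.neg_some, Affine.Point.add_of_X_ne hne] at hQ
  have ht : t = W.addX x1 x2 (W.slope x1 x2 (W.negY x1 y1) y2) := by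
    injection hQ
  rw [Affine.slope_of_X_ne hne, Affine.addX, h1, h2, hneg] at ht
  refine ⟨_, _, _, Affine.Point.add_of_X_ne hne, ?_⟩
  rw [Affine.slope_of_X_ne hne, Affine.addX, h1, h2]
  have hd : x1 - x2 ≠ 0 := sub_ne_zero.2 hne
  rw [ht]
  field_simp
  linear_combination 2 * heq1 + 2 * heq2

/-- **ADD** -/
theorem add : ADD := by
  intro K _ _ _ A B hD t s h P₁ P₂ hP a₁ b₁ a₂ b₂ hR1 hR2
  have hneg : ∀ a b : K, (Pool.Agent.Y674.TR.E K A B).negY a b = -b := fun a b => by
    rw [Affine.negY]
    change -b - 0 * a - 0 = -b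
    ring
  rcases hR1 with ⟨hz, ha1, hb1⟩ | ⟨hb1, x1, y1, h1, hz, hb1'⟩
  · subst hz
    subst hb1
    rw [← Affine.Point.zero_def, zero_add] at hP
    rcases hR2 with ⟨h2, -, -⟩ | ⟨hb2, x2, y2, h2, h3, ha2⟩
    · exfalso
      rw [hP] at h2
      exact Affine.Point.some_ne_zero h h2
    · rw [hP] at h3
      have hx : t = x2 := by injection h3
      right
      refine ⟨pow_ne_zero 2 ?_, t, s, h, ?_, ?_⟩
      · rw [mul_zero, sub_zero]
        exact mul_ne_zero ha1 hb2
      · rw [hP, ← Affine.Point.zero_def, zero_add]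
      · rw [ha2, ← hx]
        ring
  · subst hz
    subst hb1'
    rcases hR2 with ⟨hz2, ha2, hb2⟩ | ⟨hb2, x2, y2, h2, hz2, ha2⟩
    · subst hb2
      rw [hz2, ← Affine.Point.zero_def] at hP ⊢
      have h5 : Affine.Point.some t s h = -Affine.Point.some x1 y1 h1 :=
        (eq_neg_of_add_eq_zero_right hP.symm)
      rw [Affine.Point.neg_some] at h5
      have hx : t = x1 := by injection h5
      right
      refine ⟨pow_ne_zero 2 ?_, x1, y1, h1, ?_, ?_⟩
      · rw [mul_zero, zero_sub]
        exact neg_ne_zero.2 (mul_ne_zero ha2 hb1)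
      · rw [add_zero]
      · rw [hx]
        ring
    · subst hz2
      subst ha2
      by_cases hne : x1 = x2
      · subst hne
        have heq1 : y1 ^ 2 = x1 ^ 3 + A * x1 + B := by
          have := ((Pool.Agent.Y674.TR.E K A B).equation_iff x1 y1).1 h1.1
          have h7 : y1 ^ 2 + 0 * x1 * y1 + 0 * y1 = x1 ^ 3 + 0 * x1 ^ 2 + A * x1 + B := this
          linear_combination h7
        have hy : y1 = -y2 := by
          rcases Affine.Y_eq_of_X_eq h1.1 h2.1 rfl with h5 | h5
          · exfalso
            subst h5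
            have h6 : Affine.Point.some t s h = 0 := by
              have h8 : Affine.Point.some x1 y1 h1 + 0 =
                  Affine.Point.some x1 y1 h1 + Affine.Point.some t s h := by
                rw [add_zero]
                exact hP
              exact (add_left_cancel h8).symm
            exact Affine.Point.some_ne_zero h h6
          · rw [hneg] at h5
            exact h5
        have hy0 : y1 ≠ 0 := by
          intro h0
          have h2' : y2 = y1 := by rw [h0] at hy ⊢; exact (neg_eq_zero.1 hy.symm)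
          subst h2'
          have h6 : Affine.Point.some t s h = 0 := by
            have h8 : Affine.Point.some x1 y2 h1 + 0 =
                Affine.Point.some x1 y2 h1 + Affine.Point.some t s h := by
              rw [add_zero]
              exact hP
            exact (add_left_cancel h8).symm
          exact Affine.Point.some_ne_zero h h6
        left
        refine ⟨?_, ?_, by ring⟩
        · exact Affine.Point.add_of_Y_eq rfl (by rw [hneg]; exact hy)
        · have h9 : 2 * ((x1 * b₁ * b₂ + x1 * b₂ * b₁) * (x1 * b₁ * (x1 * b₂) + A * (b₁ * b₂)) +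
              2 * B * (b₁ ^ 2 * b₂ ^ 2)) - t * (x1 * b₁ * b₂ - x1 * b₂ * b₁) ^ 2 =
              4 * (b₁ * b₂ * y1) ^ 2 := by
            linear_combination (-4 * b₁ ^ 2 * b₂ ^ 2) * heq1
          rw [h9]
          exact mul_ne_zero (by norm_num) (pow_ne_zero 2 (mul_ne_zero (mul_ne_zero hb1 hb2) hy0))
      · obtain ⟨x3, y3, h', e1, e2⟩ := core (W := Pool.Agent.Y674.TR.E K A B) (A := (A : K))
          (B := (B : K)) rfl rfl rfl rfl rfl h h1 h2 hne hP
        right
        refine ⟨pow_ne_zero 2 ?_, x3, y3, h', e1, ?_⟩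
        · have h5 : x1 * b₁ * b₂ - x2 * b₂ * b₁ = (x1 - x2) * (b₁ * b₂) := by ring
          rw [h5]
          exact mul_ne_zero (sub_ne_zero.2 hne) (mul_ne_zero hb1 hb2)
        · linear_combination (-(b₁ ^ 2 * b₂ ^ 2)) * e2

end Pool.Agent.Y401.TR

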